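import Pool.Agent.PY.Bas
import Pool.Agent.PX.R3c

/-!
# PY Front: the data

`D` is the set of the points over which the form is `0` or has at most two distinct roots: closed (`r3_open`), invariant; a line which is not contained in `D` meets `D` in isolated points (`r3_near`, connectedness).
-/

set_option autoImplicit false

open Topology Filter Metric

namespace Pool.Agent.PY

open Pool.Agent.H36.BP (EN fs wd)
open Pool.Agent.H62.EF (MN pr)
open Pool.Agent.AD (Vd)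
open Pool.Agent.TG (Lat Gd)
open Pool.Agent.G3 (wt TT LLift)
open Pool.Agent.PX

variable {k d r : ℕ}

/-- the exceptional set: the form is `0` or has at most two distinct roots -/
def D2 (θ : Fin (d + 1) → Vd (k + 1) → ℂ) : Set (Vd (k + 1)) := {y | ¬((∃ i, θ i y ≠ 0) ∧ R3 θ y)}

theorem d2_open {θ : Fin (d + 1) → Vd (k + 1) → ℂ} (han : ∀ i, Differentiable ℂ (θ i)) {y : Vd (k + 1)} (hy : y ∉ D2 θ) : ∀ᶠ y' in 𝓝 y, y' ∉ D2 θ := by
  have h : (∃ i, θ i y ≠ 0) ∧ R3 θ y := not_not.1 hy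
  obtain ⟨⟨i, hi⟩, h3⟩ := h
  filter_upwards [(han i).continuous.continuousAt.eventually_ne hi, r3_open han ⟨i, hi⟩ h3] with y' h1 h2
  exact not_not.2 ⟨⟨i, h1⟩, h2⟩

theorem d2_closed {θ : Fin (d + 1) → Vd (k + 1) → ℂ} (han : ∀ i, Differentiable ℂ (θ i)) : IsClosed (D2 θ) := by
  rw [← isOpen_compl_iff, isOpen_iff_eventually]
  intro y hy
  exact d2_open han hy

/-- a line which is not contained in `D2` meets it in isolated points -/
theorem d2_iso {θ : Fin (d + 1) → Vd (k + 1) → ℂ} (han : ∀ i, Differentiable ℂ (θ i)) {y a : Vd (k + 1)} (h : ∃ z : ℂ, y + z • a ∉ D2 θ) (z₀ : ℂ) :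
    ∀ᶠ z in 𝓝[≠] z₀, y + z • a ∉ D2 θ := by
  have hline : Differentiable ℂ fun z : ℂ => y + z • a := by fun_prop
  -- the points off `D2` are open on the line
  have hop : ∀ z : ℂ, y + z • a ∉ D2 θ → ∀ᶠ z' in 𝓝 z, y + z' • a ∉ D2 θ := fun z hz =>
    hline.continuous.continuousAt.eventually (d2_open han hz)
  -- frequently implies eventually
  have hfe : ∀ z : ℂ, (∃ᶠ z' in 𝓝[≠] z, y + z' • a ∉ D2 θ) → ∀ᶠ z' in 𝓝[≠] z, y + z' • a ∉ D2 θ := by
    intro z hz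
    have hfr : ∃ᶠ z' in 𝓝[≠] z, (∃ i, θ i (y + z' • a) ≠ 0) ∧ R3 θ (y + z' • a) := hz.mono fun z' h => not_not.1 h
    have hn : ∀ᶠ z' in 𝓝[≠] z, ∃ i, θ i (y + z' • a) ≠ 0 := by
      by_contra hcon
      have hall : ∀ i, ∀ᶠ z' in 𝓝[≠] z, θ i (y + z' • a) = 0 := by
        intro i
        have hai : AnalyticAt ℂ (fun z : ℂ => θ i (y + z • a)) z := ((han i).comp hline).analyticAt z
        rcases hai.eventually_eq_zero_or_eventually_ne_zero with h1 | h1
        · exact h1.filter_mono nhdsWithin_le_nhds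
        · exact absurd (h1.mono fun z' h => ⟨i, h⟩) hcon
      obtain ⟨z', ⟨⟨i, hi⟩, -⟩, h2⟩ := (hfr.and_eventually (eventually_all.2 hall)).exists
      exact hi (h2 i)
    have h3 := r3_near han (H := fun z : ℂ => y + z • a) (hline.analyticAt z) hn (hfr.mono fun z' h => h.2)
    filter_upwards [hn, h3] with z' h1 h2
    exact not_not.2 ⟨h1, h2⟩
  set S : Set ℂ := {z | ∀ᶠ z' in 𝓝[≠] z, y + z' • a ∉ D2 θ} with hS
  have hSo : IsOpen S := by
    rw [isOpen_iff_eventually]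
    intro z hz
    have h1 : ∀ᶠ z' in 𝓝 z, z' ≠ z → y + z' • a ∉ D2 θ := eventually_nhdsWithin_iff.1 hz
    filter_upwards [h1] with z' hz'
    by_cases he : z' = z
    · rw [he]
      exact hz
    · exact (hop z' (hz' he)).filter_mono nhdsWithin_le_nhds
  have hSc : IsClosed S := by
    rw [← isOpen_compl_iff, isOpen_iff_eventually]
    intro z hz
    have h1 : ∀ᶠ z' in 𝓝[≠] z, y + z' • a ∈ D2 θ := by
      by_contra hcon
      exact hz (hfe z (not_eventually.1 hcon))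
    have h2 : ∀ᶠ z' in 𝓝 z, ∀ᶠ z'' in 𝓝 z', z'' ≠ z → y + z'' • a ∈ D2 θ := (eventually_nhdsWithin_iff.1 h1).eventually_nhds
    filter_upwards [h2] with z' hz'
    by_cases he : z' = z
    · rw [he]
      exact hz
    · intro hz''
      have h3 : ∀ᶠ z'' in 𝓝[≠] z', y + z'' • a ∉ D2 θ := hz''
      have h4 : ∀ᶠ z'' in 𝓝[≠] z', z'' ≠ z → y + z'' • a ∈ D2 θ := hz'.filter_mono nhdsWithin_le_nhds
      have h5 : ∀ᶠ z'' in 𝓝[≠] z', z'' ≠ z := mem_nhdsWithin_of_mem_nhds (isOpen_ne.mem_nhds he)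
      obtain ⟨z'', h6, h7, h8⟩ := (h3.and (h4.and h5)).exists
      exact h6 (h7 h8)
  have hSn : S.Nonempty := by
    obtain ⟨z, hz⟩ := h
    exact ⟨z, (hop z hz).filter_mono nhdsWithin_le_nhds⟩
  have hSu : S = Set.univ := IsClopen.eq_univ ⟨hSc, hSo⟩ hSn
  have : z₀ ∈ S := by
    rw [hSu]
    exact Set.mem_univ _
  exact this

theorem exists_pe {Λ : AddSubgroup (Vd (k + 1))} {θ : Fin (d + 1) → Vd (k + 1) → ℂ} {W : Fin r → Vd (k + 1) →L[ℂ] ℂ} (hΛ : Lat Λ) (han : ∀ i, Differentiable ℂ (θ i))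
    (hper : ∀ l ∈ Λ, ∀ y, ∃ e : ℂ, ‖e‖ * Real.exp (-wt W (y + l)) = Real.exp (-wt W y) ∧ ∀ i, θ i (y + l) = e * θ i y) (hpos : ∀ y, (∀ i, W i y = 0) → y = 0)
    (hL : ∀ a : Vd (k + 1), a ≠ 0 → ∀ y, ∃ z : ℂ, (∃ i, θ i (y + z • a) ≠ 0) ∧ R3 θ (y + z • a))
    (hR : ∀ a : Vd (k + 1), a ≠ 0 → ∀ y, ¬ ∃ G : ℂ → EN 1, Differentiable ℂ G ∧ (∀ z, G z ≠ 0) ∧ ∀ z : ℂ, Fo θ (y + z • a) (G z) = 0) :
    PE Λ (D2 θ) θ W where
  lat := hΛ
  deg := by
    obtain ⟨a, ha⟩ := exists_ne (0 : Vd (k + 1))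
    obtain ⟨z, ⟨i, hi⟩, x₁, -, -, h1, -⟩ := hL a ha 0
    by_contra hd
    have hd0 : d = 0 := by omega
    subst hd0
    have hi0 : i = 0 := Fin.ext (by have := i.2; simp)
    apply hi
    unfold Fo at h1
    simpa [hi0] using h1
  an := han
  per := hper
  pos := hpos
  D_closed := d2_closed han
  D_inv := by
    intro y hy l hl h
    apply hy
    obtain ⟨⟨i, hi⟩, x₁, x₂, x₃, h1, h2, h3, h4⟩ := h
    obtain ⟨e, he, hθ⟩ := hper l hl y
    have he0 : e ≠ 0 := by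
      rintro rfl
      rw [norm_zero, zero_mul] at he
      exact (Real.exp_pos _).ne he
    have hF : ∀ x, Fo θ (y + l) x = e * Fo θ y x := by
      intro x
      unfold Fo
      rw [Finset.mul_sum]
      refine Finset.sum_congr rfl fun i _ => ?_
      rw [hθ i]
      ring
    rw [hF] at h1 h2 h3
    refine ⟨⟨i, fun h => hi (by rw [hθ, h, mul_zero])⟩, x₁, x₂, x₃, (mul_eq_zero.1 h1).resolve_left he0, (mul_eq_zero.1 h2).resolve_left he0, (mul_eq_zero.1 h3).resolve_left he0, h4⟩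
  three := fun y hy => (not_not.1 hy).2
  form := fun y hy => (not_not.1 hy).1
  iso := by
    intro a ha y
    obtain ⟨z, hz⟩ := hL a ha y
    exact d2_iso han ⟨z, not_not.2 hz⟩ 0
  noroot := fun y a ha G hG h0 hr => hR a ha y ⟨G, hG, h0, hr⟩

end Pool.Agent.PY
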