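import Pool.Agent.PY.Bound
import Pool.Agent.PY.Front
import Pool.Agent.PX.BD

/-!
# PY Main: the data of the final part
-/

set_option autoImplicit false

open Topology Filter Metric

namespace Pool.Agent.PY

open Pool.Agent.H36.BP (EN fs wd)
open Pool.Agent.H62.EF (MN pr)
open Pool.Agent.AD (Vd)
open Pool.Agent.TG (Lat Gd)
open Pool.Agent.G3 (wt TT LLift)
open Pool.Agent.PX

variable {k d r : ℕ}

/-- an arbitrary torus: every line contains a point over which the form is not `0` and has three distinct roots, and there is no entire root over a line -/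
theorem bd_of {Λ : AddSubgroup (Vd (k + 1))} {θ : Fin (d + 1) → Vd (k + 1) → ℂ} {W : Fin r → Vd (k + 1) →L[ℂ] ℂ} (hΛ : Lat Λ) (han : ∀ i, Differentiable ℂ (θ i))
    (hper : ∀ l ∈ Λ, ∀ y, ∃ e : ℂ, ‖e‖ * Real.exp (-wt W (y + l)) = Real.exp (-wt W y) ∧ ∀ i, θ i (y + l) = e * θ i y) (hpos : ∀ y, (∀ i, W i y = 0) → y = 0)
    (hL : ∀ a : Vd (k + 1), a ≠ 0 → ∀ y, ∃ z : ℂ, (∃ i, θ i (y + z • a) ≠ 0) ∧ R3 θ (y + z • a))
    (hR : ∀ a : Vd (k + 1), a ≠ 0 → ∀ y, ¬ ∃ G : ℂ → EN 1, Differentiable ℂ G ∧ (∀ z, G z ≠ 0) ∧ ∀ z : ℂ, Fo θ (y + z • a) (G z) = 0) : BD Λ θ := by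
  have P := exists_pe hΛ han hper hpos hL hR
  refine ⟨hΛ, P.deg, han, fun l hl y => ?_, P.bound⟩
  obtain ⟨e, he, hθ⟩ := hper l hl y
  refine ⟨e, ?_, hθ⟩
  rintro rfl
  rw [norm_zero, zero_mul] at he
  exact (Real.exp_pos _).ne he

end Pool.Agent.PY
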