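import Pool.Agent.PY.Defs

/-!
# PY Bas: periodicity and bounds
-/

set_option autoImplicit false

open Topology Filter Metric

namespace Pool.Agent.PY

open Pool.Agent.H36.BP (EN fs wd)
open Pool.Agent.H62.EF (MN pr)
open Pool.Agent.AD (Vd)
open Pool.Agent.TG (Lat Gd)
open Pool.Agent.G3 (wt TT LLift)
open Pool.Agent.PX

variable {k d r : ℕ}

variable {Λ : AddSubgroup (Vd (k + 1))} {D : Set (Vd (k + 1))} {θ : Fin (d + 1) → Vd (k + 1) → ℂ} {W : Fin r → Vd (k + 1) →L[ℂ] ℂ}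

theorem PE.qf_add (P : PE Λ D θ W) {l : Vd (k + 1)} (hl : l ∈ Λ) (y : Vd (k + 1)) (x : EN 1) : qf θ W (y + l) x = qf θ W y x := by
  obtain ⟨e, he, hθ⟩ := P.per l hl y
  have h1 : Fo θ (y + l) x = e * Fo θ y x := by
    unfold Fo
    rw [Finset.mul_sum]
    refine Finset.sum_congr rfl fun i _ => ?_
    rw [hθ i]
    ring
  unfold qf
  rw [h1, norm_mul, mul_right_comm, he]
  ring

theorem PE.qf_le (P : PE Λ D θ W) : ∃ C : ℝ, 0 < C ∧ ∀ y x, qf θ W y x ≤ C := by
  obtain ⟨R, hR0, hR⟩ := P.lat.cpt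
  have hcF : Continuous fun p : Vd (k + 1) × EN 1 => Fo θ p.1 p.2 := (fo_diff P.an).continuous
  have hcW : Continuous fun p : Vd (k + 1) × EN 1 => wt W p.1 := by
    unfold wt
    refine continuous_finsetSum _ fun i _ => ?_
    exact (((W i).continuous.comp continuous_fst).norm).pow 2
  have hc : Continuous fun p : Vd (k + 1) × EN 1 => ‖Fo θ p.1 p.2‖ * Real.exp (-wt W p.1) :=
    hcF.norm.mul (Real.continuous_exp.comp hcW.neg)
  obtain ⟨C, hC⟩ := ((isCompact_closedBall (0 : Vd (k + 1)) R).prod (isCompact_sphere (0 : EN 1) 1)).exists_bound_of_continuousOn hc.continuousOn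
  refine ⟨max C 1, lt_of_lt_of_le one_pos (le_max_right _ _), fun y x => ?_⟩
  by_cases hx : x = 0
  · have h1 : qf θ W y x = 0 := by
      unfold qf
      rw [hx, norm_zero, zero_pow (by have := P.deg; omega), div_zero]
    rw [h1]
    exact le_trans zero_le_one (le_max_right _ _)
  obtain ⟨l, hl, hlR⟩ := hR y
  have h2 : qf θ W y x = qf θ W (y + -l) x := (P.qf_add (Λ.neg_mem hl) y x).symm
  have hxn : 0 < ‖x‖ := norm_pos_iff.2 hx
  obtain ⟨u, hu⟩ : ∃ u : EN 1, u = ((‖x‖⁻¹ : ℝ) : ℂ) • x := ⟨_, rfl⟩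
  have hun : ‖u‖ = 1 := by
    rw [hu, norm_smul, Complex.norm_real, Real.norm_of_nonneg (inv_nonneg.2 hxn.le), inv_mul_cancel₀ hxn.ne']
  have hxu : x = ((‖x‖ : ℝ) : ℂ) • u := by
    rw [hu, smul_smul, ← Complex.ofReal_mul, mul_inv_cancel₀ hxn.ne', Complex.ofReal_one, one_smul]
  have h3 : qf θ W (y + -l) x = ‖Fo θ (y + -l) u‖ * Real.exp (-wt W (y + -l)) := by
    unfold qf
    conv_lhs => rw [hxu]
    rw [fo_smul, norm_mul, norm_pow, Complex.norm_real, Real.norm_of_nonneg hxn.le, norm_smul, Complex.norm_real, Real.norm_of_nonneg hxn.le, hun, mul_one]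
    field_simp
  rw [h2, h3]
  have h4 := hC (y + -l, u) ⟨by
    rw [mem_closedBall_zero_iff]
    rw [← sub_eq_add_neg]
    exact hlR, by rw [mem_sphere_zero_iff_norm]; exact hun⟩
  rw [Real.norm_of_nonneg (by positivity)] at h4
  exact h4.trans (le_max_left _ _)

/-- translation of a curve by a point of the lattice -/
theorem cp_add (P : PE Λ D θ W) {U : Set ℂ} {w : ℂ → EN 1} {h : ℂ → Vd (k + 1)} (hc : Cp θ U w h) {l : Vd (k + 1)} (hl : l ∈ Λ) : Cp θ U w fun z => h z + l := by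
  refine ⟨hc.w_diff, hc.h_diff.add_const l, fun z hz => ?_⟩
  obtain ⟨e, he, hθ⟩ := P.per l hl (h z)
  have h1 : Fo θ (h z + l) (w z) = e * Fo θ (h z) (w z) := by
    unfold Fo
    rw [Finset.mul_sum]
    refine Finset.sum_congr rfl fun i _ => ?_
    rw [hθ i]
    ring
  rw [h1]
  refine mul_ne_zero ?_ (hc.ne z hz)
  rintro rfl
  rw [norm_zero, zero_mul] at he
  exact (Real.exp_pos _).ne he

end Pool.Agent.PY
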