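import Pool.Agent.PX.FibC

/-!
# PY Defs: complements in `A × ℙ¹`, arbitrary tori

As `PX/Defs`, but the torus is arbitrary, there are at least three distinct roots outside `D` (multiple roots are allowed), and there is no entire root over a line.
-/

set_option autoImplicit false

open Topology Filter Metric

namespace Pool.Agent.PY

open Pool.Agent.H36.BP (EN fs wd)
open Pool.Agent.H62.EF (MN pr)
open Pool.Agent.AD (Vd)
open Pool.Agent.TG (Lat Gd)
open Pool.Agent.G3 (wt TT LLift)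
open Pool.Agent.PX (Fo Fd dt Cp qf LS Rt R3)

variable {k d r : ℕ}

/-- the data -/
structure PE (Λ : AddSubgroup (Vd (k + 1))) (D : Set (Vd (k + 1))) (θ : Fin (d + 1) → Vd (k + 1) → ℂ) (W : Fin r → Vd (k + 1) →L[ℂ] ℂ) : Prop where
  lat : Lat Λ
  deg : 1 ≤ d
  an : ∀ i, Differentiable ℂ (θ i)
  per : ∀ l ∈ Λ, ∀ y, ∃ e : ℂ, ‖e‖ * Real.exp (-wt W (y + l)) = Real.exp (-wt W y) ∧ ∀ i, θ i (y + l) = e * θ i y
  pos : ∀ y, (∀ i, W i y = 0) → y = 0
  D_closed : IsClosed D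
  D_inv : ∀ y ∈ D, ∀ l ∈ Λ, y + l ∈ D
  /-- outside `D` there are three distinct roots -/
  three : ∀ y ∉ D, R3 θ y
  /-- outside `D` the form is not `0` -/
  form : ∀ y ∉ D, ∃ i, θ i y ≠ 0
  /-- the lines meet `D` in isolated points -/
  iso : ∀ a : Vd (k + 1), a ≠ 0 → ∀ y : Vd (k + 1), ∀ᶠ z in 𝓝[≠] (0 : ℂ), y + z • a ∉ D
  /-- there is no entire root over a line -/
  noroot : ∀ y a : Vd (k + 1), a ≠ 0 → ∀ G : ℂ → EN 1, Differentiable ℂ G → (∀ z, G z ≠ 0) → (∀ z : ℂ, Fo θ (y + z • a) (G z) = 0) → False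

end Pool.Agent.PY
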