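import Pool.Agent.PY.Bas
import Pool.Agent.PX.Coef

/-!
# PY Fib: the fibres outside `D`

`fib`: `fib_const`.  `fibE`: the coordinate `t = - dt e (G z) / dt b (G z)` is a root of a fixed polynomial, so bounded: Liouville.
-/

set_option autoImplicit false

open Topology Filter Metric

namespace Pool.Agent.PY

open Pool.Agent.H36.BP (EN fs wd)
open Pool.Agent.H62.EF (MN pr)
open Pool.Agent.AD (Vd)
open Pool.Agent.TG (Lat Gd)
open Pool.Agent.G3 (wt TT LLift)
open Pool.Agent.PX

variable {k d r : ℕ}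

variable {Λ : AddSubgroup (Vd (k + 1))} {D : Set (Vd (k + 1))} {θ : Fin (d + 1) → Vd (k + 1) → ℂ} {W : Fin r → Vd (k + 1) →L[ℂ] ℂ}

theorem PE.fib (P : PE Λ D θ W) {y : Vd (k + 1)} (hy : y ∉ D) {G : ℂ → EN 1} (hG : Differentiable ℂ G) (hF : ∀ z, Fo θ y (G z) ≠ 0) (z w : ℂ) :
    ∃ c : ℂ, G z = c • G w :=
  fib_const (P.three y hy) hG hF z w

/-- the form is not `0` at some `b` -/
theorem exists_nonroot {y : Vd (k + 1)} (h : ∃ i, θ i y ≠ 0) : ∃ b : EN 1, Fo θ y b ≠ 0 := by
  by_contra hcon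
  push Not at hcon
  obtain ⟨i, hi⟩ := h
  -- the polynomial `∑ θ_i(y) X ^ i`
  set p : Polynomial ℂ := ∑ j : Fin (d + 1), Polynomial.monomial (j : ℕ) (θ j y) with hp
  have hev : ∀ t : ℂ, p.eval t = 0 := by
    intro t
    have h1 := hcon (!₂[t, 1] : EN 1)
    rw [hp, Polynomial.eval_finsetSum]
    rw [← h1]
    unfold Fo
    refine Finset.sum_congr rfl fun j _ => ?_
    simp [Polynomial.eval_monomial]
  have hp0 : p = 0 := Polynomial.funext fun t => by rw [hev t, Polynomial.eval_zero]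
  have hc : p.coeff (i : ℕ) = θ i y := by
    rw [hp, Polynomial.finsetSum_coeff]
    rw [Finset.sum_eq_single i]
    · simp
    · intro j _ hj
      rw [Polynomial.coeff_monomial, if_neg]
      intro h
      exact hj (Fin.ext h)
    · intro h
      exact absurd (Finset.mem_univ i) h
  rw [hp0, Polynomial.coeff_zero] at hc
  exact hi hc.symm

theorem exists_dt_one {b : EN 1} (hb : b ≠ 0) : ∃ e : EN 1, dt b e = 1 := by
  by_cases h : b 0 = 0
  · have h1 : b 1 ≠ 0 := by
      intro h1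
      apply hb
      ext i
      fin_cases i
      · simpa using h
      · simpa using h1
    refine ⟨!₂[-(b 1)⁻¹, 0], ?_⟩
    simp [dt, h1]
  · refine ⟨!₂[0, (b 0)⁻¹], ?_⟩
    simp [dt, h]

theorem PE.fibE (P : PE Λ D θ W) {y : Vd (k + 1)} (hy : y ∉ D) {G : ℂ → EN 1} (hG : Differentiable ℂ G) (h0 : ∀ z, G z ≠ 0) (hF : ∀ z, Fo θ y (G z) = 0) (z w : ℂ) :
    ∃ c : ℂ, G z = c • G w := by
  obtain ⟨b, hb⟩ := exists_nonroot (P.form y hy)
  have hb0 : b ≠ 0 := by
    rintro rfl
    apply hb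
    have h1 := fo_smul θ y 0 (0 : EN 1)
    rw [zero_smul] at h1
    rw [h1, zero_pow (by have := P.deg; omega), zero_mul]
  obtain ⟨e, he⟩ := exists_dt_one hb0
  have hbe : dt b e ≠ 0 := by
    rw [he]
    exact one_ne_zero
  obtain ⟨c, -, hc⟩ := exists_coef P.an b e
  have hrt := fun z => rt_dt (θ := θ) hbe hb (h0 z) (hF z)
  set t : ℂ → ℂ := fun z => (-(dt e (G z)) / dt b (G z)) with ht
  have hcd : ∀ (x : EN 1), Differentiable ℂ fun z => dt x (G z) := by
    intro x
    have h1 : ∀ i : Fin 2, Differentiable ℂ fun z => G z i := fun i =>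
      ((EuclideanSpace.proj i : EN 1 →L[ℂ] ℂ).differentiable).comp hG
    unfold dt
    exact ((h1 1).const_mul _).sub ((h1 0).const_mul _)
  have htd : Differentiable ℂ t := by
    intro z
    exact ((hcd e z).neg).div (hcd b z) (hrt z).1
  -- the values are roots of a polynomial
  set p : Polynomial ℂ := Polynomial.C (Fo θ y b) * Polynomial.X ^ d + ∑ i : Fin d, Polynomial.C (c i y) * Polynomial.X ^ (i : ℕ) with hp
  have hpe : ∀ s : ℂ, p.eval s = Fo θ y (s • b + e) := by
    intro s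
    rw [hc y s, hp]
    simp [Polynomial.eval_finsetSum]
  have hp0 : p ≠ 0 := by
    intro h
    have h1 : p.coeff d = Fo θ y b := by
      rw [hp, Polynomial.coeff_add, Polynomial.coeff_C_mul, Polynomial.coeff_X_pow, if_pos rfl, mul_one, Polynomial.finsetSum_coeff]
      rw [Finset.sum_eq_zero, add_zero]
      intro i _
      rw [Polynomial.coeff_C_mul, Polynomial.coeff_X_pow, if_neg, mul_zero]
      have := i.2
      omega
    rw [h, Polynomial.coeff_zero] at h1
    exact hb h1.symm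
  have htr : ∀ z, t z ∈ p.rootSet ℂ := by
    intro z
    rw [Polynomial.mem_rootSet]
    refine ⟨hp0, ?_⟩
    rw [Polynomial.coe_aeval_eq_eval, hpe]
    obtain ⟨h1, h2⟩ := hrt z
    have h3 := hF z
    rw [h2, fo_smul] at h3
    rcases mul_eq_zero.1 h3 with h4 | h4
    · exfalso
      exact (pow_ne_zero d (div_ne_zero h1 hbe)) h4
    · exact h4
  have hbd : Bornology.IsBounded (Set.range t) :=
    (Polynomial.rootSet_finite p ℂ).isBounded.subset (Set.range_subset_iff.2 htr)
  have hconst := htd.apply_eq_apply_of_bounded hbd z w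
  obtain ⟨h1, h2⟩ := hrt z
  obtain ⟨h3, h4⟩ := hrt w
  refine ⟨dt b (G z) / dt b (G w), ?_⟩
  have h5 : G z = (dt b (G z) / dt b e) • (t z • b + e) := h2
  have h6 : G w = (dt b (G w) / dt b e) • (t w • b + e) := h4
  rw [h5]
  conv_rhs => rw [h6]
  rw [hconst, smul_smul]
  congr 1
  have h7 : dt b ((dt b (G z) / dt b e) • (t w • b + e)) = dt b (G z) := by
    rw [← hconst, ← h5]
  have h8 : dt b ((dt b (G w) / dt b e) • (t w • b + e)) = dt b (G w) := by
    rw [← h6]
  rw [h7, h8]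
  field_simp

end Pool.Agent.PY
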