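import Pool.Agent.PY.Lim
import Pool.Agent.PX.Coef
import Pool.Agent.H62.EF.PrA

/-!
# PY Hit: the limit root extends over all hits

Near `z₀` all points of the line except possibly `y + z₀ a` are off `D` (`iso`), so the functions `z ↦ θ i (y + z a)` are not all `0`: divide by `(z - z₀) ^ m`, `m` the minimal order; the form `F̃ z` obtained is not `0` at `z₀`; `b` with `F̃ z₀ b ≠ 0`, `e` with `dt b e = 1`: the roots
are `t • b + e` with bounded `t`; `g z = pr (t z • b + e)`, `t` holomorphic on the punctured disc (`LLift`: `t = - dt e Φ / dt b Φ`) and bounded: it extends.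
-/

set_option autoImplicit false

open Topology Filter Metric

namespace Pool.Agent.PY

open Pool.Agent.H36.BP (EN fs wd)
open Pool.Agent.H62.EF (MN pr)
open Pool.Agent.AD (Vd)
open Pool.Agent.TG (Lat Gd)
open Pool.Agent.G3 (wt TT LLift)
open Pool.Agent.PX

variable {k d r : ℕ}

variable {Λ : AddSubgroup (Vd (k + 1))} {D : Set (Vd (k + 1))} {θ : Fin (d + 1) → Vd (k + 1) → ℂ}
  {W : Fin r → Vd (k + 1) →L[ℂ] ℂ}

/-- division of finitely many functions by a power of `z - z₀` -/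
private theorem Hit_div {n : ℕ} {f : Fin n → ℂ → ℂ} {z₀ : ℂ} (hf : ∀ i, AnalyticAt ℂ (f i) z₀)
    (h0 : ∃ i, ¬ ∀ᶠ z in 𝓝 z₀, f i z = 0) : ∃ (m : ℕ) (F : Fin n → ℂ → ℂ), (∀ i, AnalyticAt ℂ (F i) z₀) ∧
    (∀ i, ∀ᶠ z in 𝓝 z₀, f i z = (z - z₀) ^ m * F i z) ∧ ∃ i, F i z₀ ≠ 0 := by
  obtain ⟨i₁, hi₁⟩ := h0
  obtain ⟨i₀, -, hmin⟩ := Finset.exists_min_image Finset.univ (fun i => analyticOrderAt (f i) z₀) ⟨i₁, Finset.mem_univ _⟩
  have h1 : analyticOrderAt (f i₀) z₀ ≠ ⊤ := by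
    intro h
    have h2 := hmin i₁ (Finset.mem_univ _)
    rw [h, top_le_iff, analyticOrderAt_eq_top] at h2
    exact hi₁ h2
  obtain ⟨m, hm⟩ := ENat.ne_top_iff_exists.1 h1
  have h2 : ∀ i, ∃ g : ℂ → ℂ, AnalyticAt ℂ g z₀ ∧ ∀ᶠ z in 𝓝 z₀, f i z = (z - z₀) ^ m • g z := by
    intro i
    have h3 := hmin i (Finset.mem_univ _)
    rw [← hm] at h3
    exact (natCast_le_analyticOrderAt (hf i)).1 h3
  choose F hF hFf using h2
  refine ⟨m, F, hF, hFf, i₀, ?_⟩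
  obtain ⟨g, hg, hg0, hgf⟩ := ((hf i₀).analyticOrderAt_eq_natCast).1 hm.symm
  have h4 : ∀ᶠ z in 𝓝[≠] z₀, F i₀ z = g z := by
    filter_upwards [(hFf i₀).filter_mono nhdsWithin_le_nhds, hgf.filter_mono nhdsWithin_le_nhds, self_mem_nhdsWithin] with z h5 h6 h7
    rw [h5, smul_eq_mul, smul_eq_mul] at h6
    exact mul_left_cancel₀ (pow_ne_zero m (sub_ne_zero.2 h7)) h6
  have h5 : F i₀ z₀ = g z₀ := by
    have h6 : Tendsto (F i₀) (𝓝[≠] z₀) (𝓝 (F i₀ z₀)) := (hF i₀).continuousAt.tendsto.mono_left nhdsWithin_le_nhds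
    have h7 : Tendsto (F i₀) (𝓝[≠] z₀) (𝓝 (g z₀)) := (hg.continuousAt.tendsto.mono_left nhdsWithin_le_nhds).congr' (h4.mono fun z hz => hz.symm)
    exact tendsto_nhds_unique h6 h7
  rw [h5]
  exact hg0

/-- a nonzero binary form is not zero at some `(s, 1)` -/
private theorem Hit_b {c : Fin (d + 1) → ℂ} (hc : ∃ i, c i ≠ 0) : ∃ s : ℂ, ∑ i : Fin (d + 1), c i * s ^ (i : ℕ) ≠ 0 := by
  by_contra h
  push Not at h
  obtain ⟨p, hp⟩ : ∃ p : Polynomial ℂ, p = ∑ i : Fin (d + 1), Polynomial.C (c i) * Polynomial.X ^ (i : ℕ) := ⟨_, rfl⟩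
  have h1 : p = 0 := by
    refine Polynomial.funext fun s => ?_
    rw [hp, Polynomial.eval_finsetSum, Polynomial.eval_zero]
    simpa using h s
  obtain ⟨i, hi⟩ := hc
  apply hi
  have h2 : p.coeff (i : ℕ) = c i := by
    rw [hp, Polynomial.finsetSum_coeff, Finset.sum_eq_single i]
    · rw [Polynomial.coeff_C_mul, Polynomial.coeff_X_pow, if_pos rfl, mul_one]
    · intro j _ hj
      rw [Polynomial.coeff_C_mul, Polynomial.coeff_X_pow, if_neg (fun h => hj (Fin.ext h.symm)), mul_zero]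
    · intro h
      exact absurd (Finset.mem_univ i) h
  rw [← h2, h1, Polynomial.coeff_zero]

theorem PE.any_hit (P : PE Λ D θ W) {y a : Vd (k + 1)} (ha : a ≠ 0) {g : ℂ → MN 1} (hl : ∀ z : ℂ, y + z • a ∉ D → LLift g z) (hR : Rt θ D y a g) (z₀ : ℂ) :
    ∃ ρ : ℝ, 0 < ρ ∧ ∃ G : ℂ → EN 1, DifferentiableOn ℂ G (ball z₀ ρ) ∧ (∀ z ∈ ball z₀ ρ, G z ≠ 0 ∧ Fo θ (y + z • a) (G z) = 0) ∧ ∀ z ∈ ball z₀ ρ, z ≠ z₀ → g z = pr (G z) := by
  have hline : Differentiable ℂ fun z : ℂ => y + z • a := by fun_prop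
  -- the points of the line near `z₀` are off `D`
  have hoff : ∀ᶠ z in 𝓝[≠] z₀, y + z • a ∉ D := by
    have h1 := P.iso a ha (y + z₀ • a)
    have h2 : Tendsto (fun z : ℂ => z - z₀) (𝓝[≠] z₀) (𝓝[≠] 0) := by
      refine tendsto_nhdsWithin_iff.2 ⟨?_, ?_⟩
      · have h3 : Tendsto (fun z : ℂ => z - z₀) (𝓝 z₀) (𝓝 (z₀ - z₀)) := (continuous_id.sub continuous_const).tendsto z₀
        rw [sub_self] at h3
        exact h3.mono_left nhdsWithin_le_nhds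
      · filter_upwards [self_mem_nhdsWithin] with z hz
        exact sub_ne_zero.2 hz
    filter_upwards [h2.eventually h1] with z hz
    have h3 : y + z₀ • a + (z - z₀) • a = y + z • a := by
      rw [sub_smul]
      abel
    rw [h3] at hz
    exact hz
  have hfa : ∀ i, AnalyticAt ℂ (fun z : ℂ => θ i (y + z • a)) z₀ := fun i =>
    ((P.an i).comp hline).analyticAt z₀
  -- off `D` the form is not `0`
  have hnz : ∀ y' ∉ D, ∃ i, θ i y' ≠ 0 := P.form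
  obtain ⟨m, F, hF, hFf, i₀, hi₀⟩ := Hit_div (f := fun i z => θ i (y + z • a)) hfa (by
    by_contra h
    push Not at h
    have h1 : ∀ᶠ z in 𝓝[≠] z₀, ∀ i, θ i (y + z • a) = 0 :=
      (Filter.eventually_all.2 h).filter_mono nhdsWithin_le_nhds
    obtain ⟨z, hz1, hz2⟩ := (h1.and hoff).exists
    obtain ⟨i, hi⟩ := hnz _ hz2
    exact hi (hz1 i))
  obtain ⟨s, hs⟩ := Hit_b (d := d) (c := fun i => F i z₀) ⟨i₀, hi₀⟩
  obtain ⟨b, hb⟩ : ∃ b : EN 1, b = WithLp.toLp 2 ![s, 1] := ⟨_, rfl⟩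
  obtain ⟨e, he⟩ : ∃ e : EN 1, e = WithLp.toLp 2 ![-1, 0] := ⟨_, rfl⟩
  have hb0 : b 0 = s := by rw [hb]; rfl
  have hb1 : b 1 = 1 := by rw [hb]; rfl
  have he0 : e 0 = -1 := by rw [he]; rfl
  have he1 : e 1 = 0 := by rw [he]; rfl
  have hbe : dt b e = 1 := by
    unfold dt
    rw [hb0, hb1, he0, he1]
    ring
  -- the divided form
  obtain ⟨Φ, hΦ⟩ : ∃ Φ : ℂ → Fin (d + 1) → Vd (k + 1) → ℂ, Φ = fun z i _ => F i z := ⟨_, rfl⟩
  have hΦe : ∀ z x, Fo (Φ z) 0 x = ∑ i : Fin (d + 1), F i z * x 0 ^ (i : ℕ) * x 1 ^ (d - (i : ℕ)) := by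
    intro z x
    rw [hΦ]
    rfl
  have hΦb : Fo (Φ z₀) 0 b ≠ 0 := by
    rw [hΦe, hb0, hb1]
    simpa using hs
  have hFo : ∀ᶠ z in 𝓝 z₀, ∀ x, Fo θ (y + z • a) x = (z - z₀) ^ m * Fo (Φ z) 0 x := by
    filter_upwards [Filter.eventually_all.2 hFf] with z hz x
    rw [hΦe, Finset.mul_sum]
    unfold Fo
    refine Finset.sum_congr rfl fun i _ => ?_
    rw [hz i]
    ring
  -- continuity of the divided form at `(z₀, b)`
  have hcont : ContinuousAt (fun p : ℂ × EN 1 => Fo (Φ p.1) 0 p.2) (z₀, b) := by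
    have h1 : (fun p : ℂ × EN 1 => Fo (Φ p.1) 0 p.2) = fun p => ∑ i : Fin (d + 1), F i p.1 * p.2 0 ^ (i : ℕ) * p.2 1 ^ (d - (i : ℕ)) := by
      funext p
      exact hΦe _ _
    rw [h1]
    refine tendsto_finsetSum _ fun i _ => ?_
    have h2 : ContinuousAt (fun p : ℂ × EN 1 => F i p.1) (z₀, b) :=
      ContinuousAt.comp (g := F i) (f := Prod.fst) (hF i).continuousAt continuousAt_fst
    have h3 : ContinuousAt (fun p : ℂ × EN 1 => p.2 0 ^ (i : ℕ)) (z₀, b) := by fun_prop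
    have h4 : ContinuousAt (fun p : ℂ × EN 1 => p.2 1 ^ (d - (i : ℕ))) (z₀, b) := by fun_prop
    exact (h2.mul h3).mul h4
  obtain ⟨η, hη, hne⟩ := Metric.eventually_nhds_iff.1 (hcont.eventually_ne hΦb)
  obtain ⟨ρ₁, hρ₁, h₁⟩ := Metric.eventually_nhds_iff.1 hFo
  obtain ⟨ρ₂, hρ₂, h₂⟩ := Metric.mem_nhdsWithin_iff.1 hoff
  obtain ⟨ρ, hρ⟩ : ∃ ρ : ℝ, ρ = min η (min ρ₁ ρ₂) := ⟨_, rfl⟩
  have hρ0 : 0 < ρ := by
    rw [hρ]
    exact lt_min hη (lt_min hρ₁ hρ₂)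
  have hρη : ρ ≤ η := by rw [hρ]; exact min_le_left _ _
  have hρ1 : ρ ≤ ρ₁ := by rw [hρ]; exact (min_le_right _ _).trans (min_le_left _ _)
  have hρ2 : ρ ≤ ρ₂ := by rw [hρ]; exact (min_le_right _ _).trans (min_le_right _ _)
  have hD : ∀ z ∈ ball z₀ ρ, z ≠ z₀ → y + z • a ∉ D := fun z hz hz' =>
    h₂ ⟨ball_subset_ball hρ2 hz, hz'⟩
  have hFz : ∀ z ∈ ball z₀ ρ, ∀ x, Fo θ (y + z • a) x = (z - z₀) ^ m * Fo (Φ z) 0 x := fun z hz =>
    h₁ (lt_of_lt_of_le (mem_ball.1 hz) hρ1)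
  have hnez : ∀ z ∈ ball z₀ ρ, ∀ x : EN 1, dist x b < η → Fo (Φ z) 0 x ≠ 0 := by
    intro z hz x hx
    refine hne (y := ((z, x) : ℂ × EN 1)) ?_
    rw [Prod.dist_eq]
    exact max_lt (lt_of_lt_of_le (mem_ball.1 hz) hρη) hx
  -- the roots at the points of the punctured disc
  have hroot : ∀ z ∈ ball z₀ ρ, z ≠ z₀ → ∀ x : EN 1, x ≠ 0 → Fo θ (y + z • a) x = 0 →
      dt b x ≠ 0 ∧ x = (dt b x) • ((-(dt e x) / dt b x) • b + e) ∧ ‖-(dt e x) / dt b x‖ ≤ ‖e‖ / η := by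
    intro z hz hz' x hx h
    have hp : (z - z₀) ^ m ≠ 0 := pow_ne_zero m (sub_ne_zero.2 hz')
    have h3 : Fo (Φ z) 0 x = 0 := by
      rw [hFz z hz x] at h
      exact (mul_eq_zero.1 h).resolve_left hp
    have h4 := rt_dt (θ := Φ z) (y := 0) (b := b) (e := e) (x := x) (by rw [hbe]; exact one_ne_zero)
      (hnez z hz b (by rw [dist_self]; exact hη)) hx h3
    rw [hbe, div_one] at h4
    refine ⟨h4.1, h4.2, ?_⟩
    obtain ⟨T, hT⟩ : ∃ T : ℂ, T = -(dt e x) / dt b x := ⟨_, rfl⟩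
    have h4' := h4.2
    rw [← hT] at h4' ⊢
    by_contra h5
    push Not at h5
    have hT0 : T ≠ 0 := by
      intro h6
      rw [h6, norm_zero] at h5
      have : 0 ≤ ‖e‖ / η := by positivity
      linarith
    have hTn : 0 < ‖T‖ := norm_pos_iff.2 hT0
    have h6 : Fo (Φ z) 0 (b + T⁻¹ • e) ≠ 0 := by
      refine hnez z hz _ ?_
      rw [dist_eq_norm, add_sub_cancel_left, norm_smul, norm_inv, inv_mul_lt_iff₀ hTn]
      rwa [div_lt_iff₀ hη] at h5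
    apply h6
    have h7 : x = (dt b x * T) • (b + T⁻¹ • e) := by
      conv_lhs => rw [h4']
      rw [mul_smul, smul_add T, smul_smul T, mul_inv_cancel₀ hT0, one_smul]
    rw [h7, fo_smul] at h3
    exact (mul_eq_zero.1 h3).resolve_left (pow_ne_zero d (mul_ne_zero h4.1 hT0))
  -- the function `T`
  have hex : ∀ z : ℂ, ∃ T : ℂ, ∀ x : EN 1, x ≠ 0 → pr x = g z → T = -(dt e x) / dt b x := by
    intro z
    by_cases h : ∃ x : EN 1, x ≠ 0 ∧ pr x = g z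
    · obtain ⟨x, hx, hxg⟩ := h
      refine ⟨-(dt e x) / dt b x, fun x' hx' hx'g => ?_⟩
      obtain ⟨c, hc, h1⟩ := (Pool.Agent.H62.EF.pr_eq_iff hx' hx).1 (hx'g.trans hxg.symm)
      have h2 : ∀ v : EN 1, dt v x' = c * dt v x := by
        intro v
        rw [h1]
        unfold dt
        simp only [PiLp.smul_apply, smul_eq_mul]
        ring
      rw [h2 e, h2 b, ← mul_neg, mul_div_mul_left _ _ hc]
    · exact ⟨0, fun x hx hxg => absurd ⟨x, hx, hxg⟩ h⟩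
  choose T hT using hex
  -- the properties of `T` on the punctured disc
  have hrep : ∀ z ∈ ball z₀ ρ, z ≠ z₀ → ∃ x : EN 1, x ≠ 0 ∧ pr x = g z := by
    intro z hz hz'
    obtain ⟨φ, -, h1⟩ := hl z (hD z hz hz')
    obtain ⟨h2, h3⟩ := h1.self_of_nhds
    exact ⟨φ z, h2, h3.symm⟩
  have hTr : ∀ z ∈ ball z₀ ρ, z ≠ z₀ → ‖T z‖ ≤ ‖e‖ / η ∧ g z = pr (T z • b + e) := by
    intro z hz hz'
    obtain ⟨x, hx, hxg⟩ := hrep z hz hz'
    obtain ⟨h1, h2, h3⟩ := hroot z hz hz' x hx (hR z (hD z hz hz') x hx hxg)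
    rw [hT z x hx hxg]
    refine ⟨h3, ?_⟩
    rw [← hxg]
    conv_lhs => rw [h2]
    exact Pool.Agent.H62.EF.pr_smul _ h1
  have hdiff : DifferentiableOn ℂ T (ball z₀ ρ \ {z₀}) := by
    rintro z ⟨hz, hz'⟩
    have hz'' : z ≠ z₀ := hz'
    obtain ⟨φ, hφ, h1⟩ := hl z (hD z hz hz'')
    obtain ⟨h2, h3⟩ := h1.self_of_nhds
    have hφ0 : AnalyticAt ℂ (fun w => φ w 0) z := by
      have : AnalyticAt ℂ (fun w => (EuclideanSpace.proj (0 : Fin 2) : EN 1 →L[ℂ] ℂ) (φ w)) z :=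
        (ContinuousLinearMap.analyticAt _ _).comp hφ
      exact this
    have hφ1 : AnalyticAt ℂ (fun w => φ w 1) z := by
      have : AnalyticAt ℂ (fun w => (EuclideanSpace.proj (1 : Fin 2) : EN 1 →L[ℂ] ℂ) (φ w)) z :=
        (ContinuousLinearMap.analyticAt _ _).comp hφ
      exact this
    have hdt : ∀ v : EN 1, AnalyticAt ℂ (fun w => dt v (φ w)) z := by
      intro v
      unfold dt
      exact (analyticAt_const.mul hφ1).sub (analyticAt_const.mul hφ0)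
    have hb' : dt b (φ z) ≠ 0 := (hroot z hz hz'' (φ z) h2 (hR z (hD z hz hz'') (φ z) h2 h3.symm)).1
    have h4 : AnalyticAt ℂ (fun w => -(dt e (φ w)) / dt b (φ w)) z := (hdt e).neg.div (hdt b) hb'
    have h5 : T =ᶠ[𝓝 z] fun w => -(dt e (φ w)) / dt b (φ w) := by
      filter_upwards [h1] with w hw
      exact hT w (φ w) hw.1 hw.2.symm
    exact (h4.differentiableAt.congr_of_eventuallyEq h5).differentiableWithinAt
  have hbdd : BddAbove (norm ∘ T '' (ball z₀ ρ \ {z₀})) := by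
    refine ⟨‖e‖ / η, ?_⟩
    rintro _ ⟨z, hz, rfl⟩
    exact (hTr z hz.1 hz.2).1
  have hext := Complex.differentiableOn_update_limUnder_of_bddAbove (ball_mem_nhds z₀ hρ0) hdiff hbdd
  obtain ⟨T', hT'⟩ : ∃ T' : ℂ → ℂ, T' = Function.update T z₀ (limUnder (𝓝[≠] z₀) T) := ⟨_, rfl⟩
  rw [← hT'] at hext
  have hTT : ∀ z, z ≠ z₀ → T' z = T z := by
    intro z hz
    rw [hT', Function.update_of_ne hz]
  have hGd : DifferentiableOn ℂ (fun z => T' z • b + e) (ball z₀ ρ) :=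
    (hext.smul_const b).add_const e
  have hGn : ∀ z, T' z • b + e ≠ 0 := by
    intro z h
    have h1 : dt b (T' z • b + e) = 1 := by
      rw [← hbe]
      unfold dt
      simp only [PiLp.add_apply, PiLp.smul_apply, smul_eq_mul]
      ring
    rw [h] at h1
    unfold dt at h1
    simp at h1
  have hGp : ∀ z ∈ ball z₀ ρ, z ≠ z₀ → g z = pr (T' z • b + e) := by
    intro z hz hz'
    rw [hTT z hz']
    exact (hTr z hz hz').2
  have hG0 : ∀ z ∈ ball z₀ ρ, z ≠ z₀ → Fo θ (y + z • a) (T' z • b + e) = 0 := fun z hz hz' =>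
    hR z (hD z hz hz') _ (hGn z) (hGp z hz hz').symm
  refine ⟨ρ, hρ0, fun z => T' z • b + e, hGd, fun z hz => ⟨hGn z, ?_⟩, hGp⟩
  by_cases hz' : z = z₀
  · have hA : ContinuousAt (fun z : ℂ => T' z • b + e) z₀ :=
      ((hGd z₀ (mem_ball_self hρ0)).differentiableAt (ball_mem_nhds z₀ hρ0)).continuousAt
    have hB : ContinuousAt (fun z : ℂ => y + z • a) z₀ := hline.continuous.continuousAt
    have hC := (fo_diff P.an).continuous.tendsto (y + z₀ • a, T' z₀ • b + e)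
    have hP : Tendsto (fun z : ℂ => ((y + z • a, T' z • b + e) : Vd (k + 1) × EN 1)) (𝓝 z₀) (𝓝 (y + z₀ • a, T' z₀ • b + e)) :=
      ContinuousAt.prodMk hB hA
    have hcc := hC.comp hP
    have hc : Tendsto (fun z : ℂ => Fo θ (y + z • a) (T' z • b + e)) (𝓝 z₀) (𝓝 (Fo θ (y + z₀ • a) (T' z₀ • b + e))) := hcc
    have h2 : Tendsto (fun z : ℂ => Fo θ (y + z • a) (T' z • b + e)) (𝓝[≠] z₀) (𝓝 0) := by
      refine tendsto_const_nhds.congr' ?_
      have h3 : ∀ᶠ z in 𝓝[≠] z₀, z ∈ ball z₀ ρ := mem_nhdsWithin_of_mem_nhds (ball_mem_nhds z₀ hρ0)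
      filter_upwards [h3, self_mem_nhdsWithin] with z hz hz'
      exact (hG0 z hz hz').symm
    rw [hz']
    exact tendsto_nhds_unique (hc.mono_left nhdsWithin_le_nhds) h2
  · exact hG0 z hz hz'

end Pool.Agent.PY
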