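import Pool.Agent.PY.Hit

/-!
# PY RLf: no limit root

`any_hit` gives local lifts of the map `g'` (`g' z = pr (G z)`, the continuous extension of `g`); `G3.entire_lift`; `PE.noroot`.
-/

set_option autoImplicit false

open Topology Filter Metric

namespace Pool.Agent.PY

open Pool.Agent.H36.BP (EN fs wd)
open Pool.Agent.H62.EF (MN pr)
open Pool.Agent.AD (Vd)
open Pool.Agent.TG (Lat Gd)
open Pool.Agent.G3 (wt TT LLift)
open Pool.Agent.PX

variable {k d r : ℕ}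

variable {Λ : AddSubgroup (Vd (k + 1))} {D : Set (Vd (k + 1))} {θ : Fin (d + 1) → Vd (k + 1) → ℂ} {W : Fin r → Vd (k + 1) →L[ℂ] ℂ}

/-- two lifts which agree near a point agree at the point -/
private theorem pr_agree {G G' : ℂ → EN 1} {z : ℂ} (hG : ContinuousAt G z) (hG' : ContinuousAt G' z) (h0 : G z ≠ 0) (h0' : G' z ≠ 0)
    (h : ∀ᶠ w in 𝓝[≠] z, pr (G w) = pr (G' w)) : pr (G z) = pr (G' z) := by
  have h1 : Tendsto (fun w => pr (G w)) (𝓝[≠] z) (𝓝 (pr (G z))) :=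
    (ContinuousAt.comp (Pool.Agent.H62.EF.continuousAt_pr h0) hG).tendsto.mono_left nhdsWithin_le_nhds
  have h2 : Tendsto (fun w => pr (G' w)) (𝓝[≠] z) (𝓝 (pr (G' z))) :=
    (ContinuousAt.comp (Pool.Agent.H62.EF.continuousAt_pr h0') hG').tendsto.mono_left nhdsWithin_le_nhds
  exact tendsto_nhds_unique (h1.congr' h) h2

theorem PE.no_rt (P : PE Λ D θ W) {y a : Vd (k + 1)} (ha : a ≠ 0) {g : ℂ → MN 1} (hl : ∀ z : ℂ, y + z • a ∉ D → LLift g z) (hR : Rt θ D y a g) : False := by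
  choose ρ hρ Gl hGd hGr hGg using P.any_hit ha hl hR
  have hcont : ∀ z₀, ∀ z ∈ ball z₀ (ρ z₀), ContinuousAt (Gl z₀) z := fun z₀ z hz =>
    ((hGd z₀).continuousOn.continuousAt (isOpen_ball.mem_nhds hz))
  -- the local lifts agree
  have key : ∀ z₀, ∀ z ∈ ball z₀ (ρ z₀), pr (Gl z z) = pr (Gl z₀ z) := by
    intro z₀ z hz
    rcases eq_or_ne z z₀ with rfl | hne
    · rfl
    refine pr_agree (hcont z z (mem_ball_self (hρ z))) (hcont z₀ z hz) (hGr z z (mem_ball_self (hρ z))).1 (hGr z₀ z hz).1 ?_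
    have h1 : ∀ᶠ w in 𝓝[≠] z, w ∈ ball z (ρ z) := mem_nhdsWithin_of_mem_nhds (ball_mem_nhds z (hρ z))
    have h2 : ∀ᶠ w in 𝓝[≠] z, w ∈ ball z₀ (ρ z₀) := mem_nhdsWithin_of_mem_nhds (isOpen_ball.mem_nhds hz)
    have h3 : ∀ᶠ w in 𝓝[≠] z, w ≠ z₀ := mem_nhdsWithin_of_mem_nhds (isOpen_ne.mem_nhds hne)
    filter_upwards [h1, h2, h3, self_mem_nhdsWithin] with w hw1 hw2 hw3 hw4
    rw [← hGg z w hw1 hw4, ← hGg z₀ w hw2 hw3]
  have hL : ∀ z, LLift (fun z => pr (Gl z z)) z := by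
    intro z₀
    refine ⟨Gl z₀, (hGd z₀).analyticAt (ball_mem_nhds z₀ (hρ z₀)), ?_⟩
    filter_upwards [ball_mem_nhds z₀ (hρ z₀)] with z hz
    exact ⟨(hGr z₀ z hz).1, key z₀ z hz⟩
  obtain ⟨G, hG, hGe⟩ := Pool.Agent.G3.entire_lift hL
  have hroot : ∀ z : ℂ, Fo θ (y + z • a) (G z) = 0 := by
    intro z
    have h1 := hGr z z (mem_ball_self (hρ z))
    obtain ⟨c, -, hc⟩ := (Pool.Agent.H62.EF.pr_eq_iff (hGe z).1 h1.1).mp (hGe z).2.symm
    rw [hc, fo_smul, h1.2, mul_zero]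
  exact P.noroot y a ha G hG (fun z => (hGe z).1) hroot

end Pool.Agent.PY
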